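import Pool.Agent.Lib.MP_4da284_al.H44Verma

set_option autoImplicit false

namespace Pool.Agent.Results.MP_4da284_al.LocalisedKernel

open Pool.Agent.Lib.MP_4da284_al

universe u

/-- Over an uncountable algebraically closed field of characteristic zero, the primitive ideals
that are not the kernel of an algebra map to a Weyl algebra with some of its variables inverted are
exactly `0` for the Witt algebra and exactly the ideals `(z - c)` for the Virasoro algebra. -/
theorem result (k : Type u) [Field k] [CharZero k] [Uncountable k] [IsAlgClosed k] :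
    (∀ Q : Ideal (UniversalEnvelopingAlgebra k (Witt k)),
      (IsPrimitiveIdeal Q ∧ ¬ IsLocKernel k Q) ↔ Q = ⊥) ∧
    (∀ (g : Type u) [LieRing g] [LieAlgebra k g] (b : Module.Basis (Option ℤ) k g),
      IsVirasoro k g b → ∀ Q : Ideal (UniversalEnvelopingAlgebra k g),
        (IsPrimitiveIdeal Q ∧ ¬ IsLocKernel k Q) ↔ ∃ c : k, Q = centralIdeal (b none) c) :=
  ⟨Q2.full_witt, fun _ _ _ _ hb => Q2.full_vir hb⟩

/- The predicate `IsVirasoro` is met. -/
example (k : Type u) [Field k] [CharZero k] : IsVirasoro k (Q2.VirModel k) (Q2.vb k) :=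
  Q2.isVirasoro_model k

end Pool.Agent.Results.MP_4da284_al.LocalisedKernel
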