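import Pool.Agent.Lib.MP_4da284_al.Main

set_option autoImplicit false

namespace Pool.Agent.Results.MP_4da284_al.TwoPointIdeal

open Pool.Agent.Lib.MP_4da284_al TensorProduct

universe u

/-- For the Witt algebra, and for every Lie algebra mapping onto it such as the Virasoro algebra,
there is a primitive ideal, nonzero already in the enveloping algebra of the Witt algebra, that is
not the kernel of an algebra map to a localised Weyl algebra tensored with a Weyl algebra. -/
theorem result (k : Type u) [Field k] [CharZero k] (g : Type u) [LieRing g] [LieAlgebra k g]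
    (π : g →ₗ⁅k⁆ Witt k) (hπ : Function.Surjective π) :
    ∃ Q : Ideal (UniversalEnvelopingAlgebra k g), IsPrimitiveIdeal Q ∧
      RingHom.ker (envMap π) < Q ∧
      ∀ (m : ℕ) (φ : UniversalEnvelopingAlgebra k g →ₐ[k] LocWeyl k ⊗[k] Weyl k m),
        RingHom.ker φ ≠ Q :=
  main g π hπ

end Pool.Agent.Results.MP_4da284_al.TwoPointIdeal
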