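import Pool.Agent.Lib.MP_4da284_al.H44Verma

set_option autoImplicit false

namespace Pool.Agent.Results.MP_4da284_al.VirSimple

open Pool.Agent.Lib.MP_4da284_al

universe u

/-- Over any field of characteristic zero and for every nonzero central charge `c`, the ideal
`(z - c)` of the enveloping algebra of the Virasoro algebra is a maximal two-sided ideal, that is,
the quotient is a simple ring. -/
theorem result (k : Type u) [Field k] [CharZero k] (g : Type u) [LieRing g] [LieAlgebra k g]
    (b : Module.Basis (Option ℤ) k g) (hb : IsVirasoro k g b) (c : k) (hc : c ≠ 0) :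
    centralIdeal (b none) c ≠ ⊤ ∧
      ∀ (J : Ideal (UniversalEnvelopingAlgebra k g)) [J.IsTwoSided],
        centralIdeal (b none) c < J → J = ⊤ :=
  ⟨Q2.central_ne_top hb c,
    fun J _ h => Q2.vir_simple hb hc J (fun _ hq u => J.mul_mem_right u hq) h⟩

/- The predicate `IsVirasoro` is met. -/
example (k : Type u) [Field k] [CharZero k] : IsVirasoro k (Q2.VirModel k) (Q2.vb k) :=
  Q2.isVirasoro_model k

end Pool.Agent.Results.MP_4da284_al.VirSimple
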