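import Pool.Agent.Lib.MP_4da284_al.H84Closed

set_option autoImplicit false

namespace Pool.Agent.Results.MP_4da284_al.WeylKernelAll

open Pool.Agent.Lib.MP_4da284_al Polynomial

universe u

/-- Let `k` be an uncountable field of characteristic zero. If `k` is algebraically closed, a
primitive ideal of the enveloping algebra of the polynomial vector fields on the line is the kernel
of an algebra map to a Weyl algebra if and only if it is nonzero. If `k` is not algebraically
closed, some nonzero primitive ideal is not such a kernel. -/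
theorem result (k : Type u) [Field k] [CharZero k] [Uncountable k] :
    (IsAlgClosed k →
      ∀ Q : Ideal (UniversalEnvelopingAlgebra k (Derivation k k[X] k[X])), IsPrimitiveIdeal Q →
        ((∃ m ≥ 1, ∃ φ : UniversalEnvelopingAlgebra k (Derivation k k[X] k[X]) →ₐ[k] Weyl k m,
          RingHom.ker φ = Q) ↔ Q ≠ ⊥)) ∧
    (¬ IsAlgClosed k →
      ∃ Q : Ideal (UniversalEnvelopingAlgebra k (Derivation k k[X] k[X])), IsPrimitiveIdeal Q ∧
        Q ≠ ⊥ ∧ ¬ ∃ m ≥ 1,
          ∃ φ : UniversalEnvelopingAlgebra k (Derivation k k[X] k[X]) →ₐ[k] Weyl k m,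
            RingHom.ker φ = Q) := by
  refine ⟨fun _ Q hQ => ⟨fun ⟨m, _, φ, h⟩ => h ▸ Q1.ker_ne_bot m φ, Q1.main Q hQ⟩, fun hk => ?_⟩
  by_contra h
  refine hk (Q1.closed_of_kernels k fun Q hQ h0 => ?_)
  by_contra h1
  exact h ⟨Q, hQ, h0, h1⟩

end Pool.Agent.Results.MP_4da284_al.WeylKernelAll
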